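import Pool.Agent.N436.DF.Stm

/-!
# Minimal counterexamples and the two kill lemmas

Project DF (helper436), part DF/8; this file by helper787.
-/

set_option autoImplicit false
set_option linter.all false

namespace Pool.Agent.N787.DF

open Finset Pool.Agent.N436.DF

variable {V : Type} [DecidableEq V] {P : Par}

theorem eE_nn {H : Hub V} (hok : Ok P H) (S : Finset V) : 0 ≤ eE H S :=
  sum_nonneg fun u _ => sum_nonneg fun v _ => by rcases hok.r01 u v with h | h <;> omega

theorem eM_nn {H : Hub V} (hok : Ok P H) (S : Finset V) : 0 ≤ eM H S :=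
  sum_nonneg fun u _ => sum_nonneg fun v _ => hok.m_nn u v

theorem eE_mono {H : Hub V} (hok : Ok P H) {S T : Finset V} (h : S ⊆ T) : eE H S ≤ eE H T := by
  have h0 : ∀ u v, 0 ≤ H.r u v := fun u v => by rcases hok.r01 u v with h | h <;> omega
  refine (sum_le_sum fun u _ => sum_le_sum_of_subset_of_nonneg h fun v _ _ => h0 u v).trans ?_
  exact sum_le_sum_of_subset_of_nonneg h fun u _ _ => sum_nonneg fun v _ => h0 u v

theorem ex : S_ex := by
  intro V _ P hno H₀ S₀ hok₀ hhyp₀
  by_contra hcol₀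
  let μ : Hub V × Finset V → ℕ × (ℕ × ℕ) :=
    fun x => ((eE x.1 x.2).toNat, (x.2.card, (eM x.1 x.2).toNat))
  have wf : WellFounded (InvImage (Prod.Lex (· < ·) (Prod.Lex (· < ·) (· < ·))) μ) :=
    InvImage.wf μ (WellFounded.prod_lex wellFounded_lt
      (WellFounded.prod_lex wellFounded_lt wellFounded_lt))
  obtain ⟨⟨H, S⟩, ⟨hok, hhyp, hcol⟩, hmin⟩ := wf.has_min
    {x : Hub V × Finset V | Ok P x.1 ∧ Hyp P x.1 x.2 ∧ ¬ Col x.1 x.2}
    ⟨(H₀, S₀), hok₀, hhyp₀, hcol₀⟩
  simp only at hok hhyp hcol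
  have key : ∀ (H' : Hub V) (S' : Finset V), Ok P H' → Hyp P H' S' →
      Prod.Lex (· < ·) (Prod.Lex (· < ·) (· < ·)) (μ (H', S')) (μ (H, S)) → Col H' S' := by
    intro H' S' hok' hhyp' hlt
    by_contra hcol'
    exact hmin (H', S') ⟨hok', hhyp', hcol'⟩ hlt
  refine hno H S ⟨hok, hhyp, hcol, ?_, ?_, ?_⟩
  · intro H' S' hok' hhyp' hlt
    refine key H' S' hok' hhyp' (Prod.lex_def.2 (Or.inl ?_))
    have h1 := eE_nn hok' S'
    show (eE H' S').toNat < (eE H S).toNat
    omega
  · intro H' S' hok' hhyp' hle hlt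
    refine key H' S' hok' hhyp' (Prod.lex_def.2 ?_)
    rcases hle.lt_or_eq with h | h
    · left
      have h1 := eE_nn hok' S'
      show (eE H' S').toNat < (eE H S).toNat
      omega
    · right
      refine ⟨by show (eE H' S').toNat = (eE H S).toNat; rw [h], Prod.lex_def.2 (Or.inl ?_)⟩
      exact hlt
  · intro H' S' hok' hhyp' hle hle2 hlt
    refine key H' S' hok' hhyp' (Prod.lex_def.2 ?_)
    rcases hle.lt_or_eq with h | h
    · left
      have h1 := eE_nn hok' S'
      show (eE H' S').toNat < (eE H S).toNat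
      omega
    · right
      refine ⟨by show (eE H' S').toNat = (eE H S).toNat; rw [h], Prod.lex_def.2 ?_⟩
      rcases hle2.lt_or_eq with h2 | h2
      · left; exact h2
      · right
        refine ⟨h2, ?_⟩
        have h1 := eM_nn hok' S'
        show (eM H' S').toNat < (eM H S).toNat
        omega

theorem kf (hkc : S_killCol) (hkr : S_killRho) : S_KF := by
  intro V _ P H S X f p mc hXS hXne hcol
  by_contra hcon
  push Not at hcon
  obtain ⟨hok', hrho, -⟩ := hkr V P H X f mc.ok
  have hhyp : Hyp P (kill H X f) (S \ X) := by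
    intro Y hY hYne
    have hdis : Disjoint Y X := by
      rw [Finset.disjoint_left]
      intro v hv
      exact (mem_sdiff.1 (hY hv)).2
    rw [hrho Y hdis]
    exact hcon Y hY hYne
  have hE : eE (kill H X f) (S \ X) ≤ eE H S := by
    show eE H (S \ X) ≤ eE H S
    exact eE_mono mc.ok sdiff_subset
  have hcard : (S \ X).card < S.card := by
    apply card_lt_card
    refine ⟨sdiff_subset, fun h => ?_⟩
    obtain ⟨x, hx⟩ := hXne
    exact (mem_sdiff.1 (h (hXS hx))).2 hx
  obtain ⟨f', p', h1, -⟩ := hkc V P H S X f p mc.ok hXS hcol (mc.ih2 _ _ hok' hhyp hE hcard)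
  exact mc.ncol ⟨f', p', h1⟩

theorem k1f (hk1 : S_K1) : S_K1F := by
  intro V _ P H S X f p x0 v1 mc hXS hcol hx0 hv1 hadj hload
  by_contra hcon
  push Not at hcon
  obtain ⟨H', hok', hr, hc, hrho⟩ := hk1 V P H S X f p x0 v1 mc.ok hXS hcol hx0 hv1 hadj hload
  have hhyp : Hyp P H' (S \ X) := by
    intro Y hY hYne
    exact lt_of_lt_of_le (hcon Y hY hYne) (hrho Y hY)
  have hE : eE H' (S \ X) ≤ eE H S := by
    have : eE H' (S \ X) = eE H (S \ X) :=
      sum_congr rfl fun u hu => sum_congr rfl fun v hv => hr u hu v hv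
    rw [this]
    exact eE_mono mc.ok sdiff_subset
  have hcard : (S \ X).card < S.card := by
    apply card_lt_card
    refine ⟨sdiff_subset, fun h => ?_⟩
    exact (mem_sdiff.1 (h (hXS hx0))).2 hx0
  exact mc.ncol (hc (mc.ih2 _ _ hok' hhyp hE hcard))

end Pool.Agent.N787.DF

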